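import Pool.Agent.Helper28_MWZ.Asm
import Pool.Agent.MWU.Cls

/-!
# Top level assembly of the classification (MP_23468a_al)

The block theorems are hypotheses: `IsoN, IsoS` (the varieties for which `xyx` is an isoterm), `BetN, BetS`
(`xyx ≈ x^(n+1)yx^(n+1)`), `GamN, GamS` (`xyx ≈ xyx^(n+1)`), all with `x² ≈ x^(n+2)`, for the periods `n` with
`Q n`.  The systems of identities are parameters `SI SB SG`.
-/

namespace Pool.Agent.MWU

open Pool.Agent.Helper14_MV Pool.Agent.Helper2_MV Pool.Agent.MVO Pool.Agent.MWZ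

/-- a condition on the identities of a variety with `x² ≈ x^(n+2)` -/
abbrev Sy : Type := ℕ → (List ℕ → List ℕ → Prop) → Prop

/-- not completely regular -/
def NCR (β : FIC) : Prop := ∀ n : ℕ, 1 ≤ n → ¬ β.r (lx ^ (n + 1)) lx

/-- high powers are central -/
def Cen (β : FIC) : Prop := ∃ k, ∀ m, k ≤ m → β.r (lx ^ m * ly) (ly * lx ^ m)

/-- `xyx ≈ x²y`, `x²y² ≈ y²x²` -/
def SC (S : List ℕ → List ℕ → Prop) : Prop := S [0, 1, 0] [0, 0, 1] ∧ S [0, 0, 1, 1] [1, 1, 0, 0]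

/-- `xyx ≈ x^(n+1)yx^(n+1)` -/
def Bet : Sy := fun n S => S [0, 1, 0] (X (n + 1) ++ 1 :: X (n + 1))

/-- `xyx ≈ xyx^(n+1)` -/
def Gam : Sy := fun n S => S [0, 1, 0] (0 :: 1 :: X (n + 1))

/-- necessity for a class `C` of varieties -/
def Nec (Q : ℕ → Prop) (C : ℕ → FIC → Prop) (T : Sy) : Prop :=
  ∀ (n : ℕ) (β : FIC), 1 ≤ n → Q n → Per n (RR β) → NCR β → ¬ Cen β → ModF β → C n β →
    T n (RR β) ∨ T n (Rev (RR β))

/-- sufficiency -/
def Suf (Q : ℕ → Prop) (T : Sy) : Prop :=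
  ∀ (n : ℕ) (β : FIC), 1 ≤ n → Q n → Per n (RR β) → T n (RR β) → ModF β

/-- the condition on the identities of a variety with `x² ≈ x^(n+2)` -/
def Sys (SI SB SG : Sy) : Sy := fun n S => SC S ∨ SI n S ∨ SB n S ∨ SG n S

/-- the classification for the periods `n` with `Q n` -/
def Thm (Q : ℕ → Prop) (SI SB SG : Sy) : Prop :=
  ∀ V : Variety, (V.CompletelyRegular ∨ Sqr V ∨ Hpc V ∨ ∃ n, 1 ≤ n ∧ Q n ∧ Per n (VS V)) →
    (V.ModularLattice ↔ V.CompletelyRegular ∨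
      (Hpc V ∧ (¬ Xyx V ∨ MVO.Sys.Good (VS V) ∨ MVO.Sys.Good (Rev (VS V)))) ∨
      ∃ n, 1 ≤ n ∧ Q n ∧ Per n (VS V) ∧ (Sys SI SB SG n (VS V) ∨ Sys SI SB SG n (Rev (VS V))))

/-- the classification of all varieties -/
def ThmAll (SI SB SG : Sy) : Prop :=
  ∀ V : Variety, V.ModularLattice ↔ V.CompletelyRegular ∨
      (Hpc V ∧ (¬ Xyx V ∨ MVO.Sys.Good (VS V) ∨ MVO.Sys.Good (Rev (VS V)))) ∨
      ∃ n, 1 ≤ n ∧ Per n (VS V) ∧ (Sys SI SB SG n (VS V) ∨ Sys SI SB SG n (Rev (VS V)))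

end Pool.Agent.MWU
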